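import Mathlib

/-!
# Monotone two-sided lattice paths with steps (1,0), (0,1), (1,1)

Two translates of such a path which do not share a vertex do not cross. This gives a
semigroup of `left` translations and hence a linear form which is bounded away from zero on
the differences which do not occur.
-/

set_option autoImplicit false

namespace Pool.Agent.H41.TG

/-- `(X, Y)` is a two-sided lattice path with steps `(1,0)`, `(0,1)`, `(1,1)`. -/
def Steps (X Y : ℤ → ℤ) : Prop :=
  ∀ i, (X (i + 1) = X i + 1 ∧ Y (i + 1) = Y i) ∨ (X (i + 1) = X i ∧ Y (i + 1) = Y i + 1) ∨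
    (X (i + 1) = X i + 1 ∧ Y (i + 1) = Y i + 1)

/-- `(x, y)` is on the path or on its upper left side. -/
def Lam (X Y : ℤ → ℤ) (x y : ℤ) : Prop := ∃ i, x ≤ X i ∧ Y i ≤ y

variable {X Y : ℤ → ℤ}

theorem Steps.swap (h : Steps X Y) : Steps Y X := by
  intro i
  rcases h i with h1 | h1 | h1
  · exact Or.inr (Or.inl ⟨h1.2, h1.1⟩)
  · exact Or.inl ⟨h1.2, h1.1⟩
  · exact Or.inr (Or.inr ⟨h1.2, h1.1⟩)

theorem Steps.monoX (h : Steps X Y) : Monotone X := by
  apply monotone_int_of_le_succ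
  intro i
  rcases h i with h1 | h1 | h1 <;> omega

theorem Steps.monoY (h : Steps X Y) : Monotone Y := h.swap.monoX

theorem Steps.strict (h : Steps X Y) : StrictMono (fun i => X i + Y i) := by
  apply strictMono_int_of_lt_succ
  intro i
  show X i + Y i < X (i + 1) + Y (i + 1)
  rcases h i with h1 | h1 | h1 <;> omega

theorem Steps.up (h : Steps X Y) (i : ℤ) (hi : 0 ≤ i) : X 0 + Y 0 + i ≤ X i + Y i := by
  induction i, hi using Int.leInduction with
  | base => simp
  | succ n hn ih => rcases h n with h1 | h1 | h1 <;> omega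

theorem Steps.down (h : Steps X Y) (i : ℤ) (hi : i ≤ 0) : X i + Y i ≤ X 0 + Y 0 + i := by
  induction i, hi using Int.leInductionDown with
  | base => simp
  | pred n hn ih =>
    have h2 := h (n - 1)
    rw [sub_add_cancel] at h2
    rcases h2 with h1 | h1 | h1 <;> omega

theorem Steps.bdd_above (h : Steps X Y) (c : ℤ) : ∃ B, ∀ i, X i + Y i ≤ c → i ≤ B := by
  refine ⟨max 0 (c - (X 0 + Y 0)), fun i hi => ?_⟩
  by_cases h0 : 0 ≤ i
  · have := h.up i h0
    omega
  · omega

theorem Steps.bdd_below (h : Steps X Y) (c : ℤ) : ∃ B, ∀ i, c ≤ X i + Y i → B ≤ i := by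
  refine ⟨min 0 (c - (X 0 + Y 0)), fun i hi => ?_⟩
  by_cases h0 : i ≤ 0
  · have := h.down i h0
    omega
  · omega

/-- Every lattice point is weakly left or weakly right of the path. -/
theorem Steps.cover (h : Steps X Y) (x y : ℤ) : Lam X Y x y ∨ Lam Y X y x := by
  obtain ⟨B, hB⟩ := h.bdd_above (x + y)
  have hne : ∃ i, X i + Y i ≤ x + y := by
    refine ⟨min 0 (x + y - (X 0 + Y 0)), ?_⟩
    have := h.down (min 0 (x + y - (X 0 + Y 0))) (min_le_left _ _)
    omega
  obtain ⟨i, hi, hmax⟩ := Int.exists_greatest_of_bdd (P := fun i => X i + Y i ≤ x + y)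
    ⟨B, hB⟩ hne
  have hi1 : x + y < X (i + 1) + Y (i + 1) := by
    by_contra hc
    have := hmax (i + 1) (not_lt.1 hc)
    omega
  by_cases hx : x ≤ X i
  · left
    exact ⟨i, hx, by omega⟩
  · right
    refine ⟨i + 1, ?_, ?_⟩
    · rcases h i with h1 | h1 | h1 <;> omega
    · rcases h i with h1 | h1 | h1 <;> omega

/-- A lattice point which is weakly left and weakly right of the path is on the path. -/
theorem Steps.on (h : Steps X Y) {x y : ℤ} (h1 : Lam X Y x y) (h2 : Lam Y X y x) :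
    ∃ k, X k = x ∧ Y k = y := by
  obtain ⟨i, hxi, hyi⟩ := h1
  obtain ⟨j, hyj, hxj⟩ := h2
  rcases le_total i j with hij | hij
  · have hX := h.monoX hij
    obtain ⟨k, hk, hmax⟩ := Int.exists_greatest_of_bdd (P := fun k => i ≤ k ∧ k ≤ j ∧ Y k ≤ y)
      ⟨j, fun k hk => hk.2.1⟩ ⟨i, le_refl _, hij, hyi⟩
    have h3 := h.monoX hk.1
    have h4 := h.monoX hk.2.1
    refine ⟨k, by omega, ?_⟩
    rcases eq_or_lt_of_le hk.2.1 with h5 | h5
    · rw [h5] at hk ⊢
      omega
    · have h6 : y < Y (k + 1) := by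
        by_contra hc
        have := hmax (k + 1) ⟨by omega, by omega, not_lt.1 hc⟩
        omega
      rcases h k with h7 | h7 | h7 <;> omega
  · have hY := h.monoY hij
    obtain ⟨k, hk, hmax⟩ := Int.exists_greatest_of_bdd (P := fun k => j ≤ k ∧ k ≤ i ∧ X k ≤ x)
      ⟨i, fun k hk => hk.2.1⟩ ⟨j, le_refl _, hij, hxj⟩
    have h3 := h.monoY hk.1
    have h4 := h.monoY hk.2.1
    refine ⟨k, ?_, by omega⟩
    rcases eq_or_lt_of_le hk.2.1 with h5 | h5
    · rw [h5] at hk ⊢
      omega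
    · have h6 : x < X (k + 1) := by
        by_contra hc
        have := hmax (k + 1) ⟨by omega, by omega, not_lt.1 hc⟩
        omega
      rcases h k with h7 | h7 | h7 <;> omega

/-- From a point strictly left of the path one can go one step to the right. -/
theorem Steps.right_step (h : Steps X Y) {x y : ℤ} (h1 : Lam X Y x y)
    (h2 : ∀ k, ¬ (X k = x ∧ Y k = y)) : Lam X Y (x + 1) y := by
  obtain ⟨i, hxi, hyi⟩ := h1
  by_cases hc : x + 1 ≤ X i
  · exact ⟨i, hc, hyi⟩
  · obtain ⟨B, hB⟩ := h.bdd_above (x + y)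
    obtain ⟨k, hk, hmax⟩ := Int.exists_greatest_of_bdd
      (P := fun k => i ≤ k ∧ X k ≤ x ∧ Y k ≤ y)
      ⟨B, fun k hk => hB k (by omega)⟩ ⟨i, le_refl _, by omega, hyi⟩
    have h3 := h.monoX hk.1
    have h4 := h2 k
    have h5 : ¬ (X (k + 1) ≤ x ∧ Y (k + 1) ≤ y) := by
      intro hcc
      have := hmax (k + 1) ⟨by omega, hcc.1, hcc.2⟩
      omega
    refine ⟨k + 1, ?_, ?_⟩
    · rcases h k with h7 | h7 | h7 <;> omega
    · rcases h k with h7 | h7 | h7 <;> omega

/-- From a point strictly left of the path one can go one step down. -/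
theorem Steps.down_step (h : Steps X Y) {x y : ℤ} (h1 : Lam X Y x y)
    (h2 : ∀ k, ¬ (X k = x ∧ Y k = y)) : Lam X Y x (y - 1) := by
  obtain ⟨i, hxi, hyi⟩ := h1
  by_cases hc : Y i ≤ y - 1
  · exact ⟨i, hxi, hc⟩
  · obtain ⟨B, hB⟩ := h.bdd_below (x + y)
    obtain ⟨k, hk, hmin⟩ := Int.exists_least_of_bdd
      (P := fun k => k ≤ i ∧ x ≤ X k ∧ y ≤ Y k)
      ⟨B, fun k hk => hB k (by omega)⟩ ⟨i, le_refl _, hxi, by omega⟩
    have h3 := h.monoY hk.1
    have h4 := h2 k
    have h5 : ¬ (x ≤ X (k - 1) ∧ y ≤ Y (k - 1)) := by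
      intro hcc
      have := hmin (k - 1) ⟨by omega, hcc.1, hcc.2⟩
      omega
    have h6 := h (k - 1)
    rw [sub_add_cancel] at h6
    refine ⟨k - 1, ?_, ?_⟩
    · rcases h6 with h7 | h7 | h7 <;> omega
    · rcases h6 with h7 | h7 | h7 <;> omega

/-- The translate by `(p, q)` shares a vertex with the path. -/
def Share (X Y : ℤ → ℤ) (p q : ℤ) : Prop := ∃ i j, X j = X i + p ∧ Y j = Y i + q

/-- All vertices of the translate by `(p, q)` are weakly left of the path, and all vertices of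
the translate by `(-p, -q)` weakly right. -/
def Lft (X Y : ℤ → ℤ) (p q : ℤ) : Prop :=
  (∀ i, Lam X Y (X i + p) (Y i + q)) ∧ ∀ i, Lam Y X (Y i - q) (X i - p)

theorem Lft.add {p q p' q' : ℤ} (h1 : Lft X Y p q) (h2 : Lft X Y p' q') :
    Lft X Y (p + p') (q + q') := by
  constructor
  · intro i
    obtain ⟨j, hj1, hj2⟩ := h1.1 i
    obtain ⟨k, hk1, hk2⟩ := h2.1 j
    exact ⟨k, by omega, by omega⟩
  · intro i
    obtain ⟨j, hj1, hj2⟩ := h1.2 i
    obtain ⟨k, hk1, hk2⟩ := h2.2 j
    exact ⟨k, by omega, by omega⟩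

theorem Lft.zero : Lft X Y 0 0 := ⟨fun i => ⟨i, by omega, by omega⟩, fun i => ⟨i, by omega, by omega⟩⟩

theorem Lft.left (p : ℕ) : Lft X Y (-(p : ℤ)) 0 :=
  ⟨fun i => ⟨i, by omega, by omega⟩, fun i => ⟨i, by omega, by omega⟩⟩

theorem Lft.up (q : ℕ) : Lft X Y 0 q :=
  ⟨fun i => ⟨i, by omega, by omega⟩, fun i => ⟨i, by omega, by omega⟩⟩

theorem Lft.nsmul {p q : ℤ} (h : Lft X Y p q) (n : ℕ) : Lft X Y (n * p) (n * q) := by
  induction n with
  | zero => simpa using Lft.zero
  | succ n ih =>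
    have := ih.add h
    rw [show ((n + 1 : ℕ) : ℤ) * p = n * p + p by push_cast; ring,
      show ((n + 1 : ℕ) : ℤ) * q = n * q + q by push_cast; ring]
    exact this

/-- All vertices of a translate without common vertex are on one side. -/
theorem Steps.side (h : Steps X Y) {p q : ℤ} (hs : ¬ Share X Y p q) (i0 : ℤ)
    (h0 : Lam X Y (X i0 + p) (Y i0 + q)) : ∀ i, Lam X Y (X i + p) (Y i + q) := by
  have hn : ∀ i k, ¬ (X k = X i + p ∧ Y k = Y i + q) := fun i k hk => hs ⟨i, k, hk⟩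
  have hup : ∀ i, Lam X Y (X i + p) (Y i + q) → Lam X Y (X (i + 1) + p) (Y (i + 1) + q) := by
    intro i hi
    rcases h i with h1 | h1 | h1
    · rw [h1.1, h1.2, show X i + 1 + p = X i + p + 1 by ring]
      exact h.right_step hi (hn i)
    · rw [h1.1, h1.2]
      obtain ⟨j, hj1, hj2⟩ := hi
      exact ⟨j, hj1, by omega⟩
    · rw [h1.1, h1.2, show X i + 1 + p = X i + p + 1 by ring]
      obtain ⟨j, hj1, hj2⟩ := h.right_step hi (hn i)
      exact ⟨j, hj1, by omega⟩
  have hdn : ∀ i, Lam X Y (X (i + 1) + p) (Y (i + 1) + q) → Lam X Y (X i + p) (Y i + q) := by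
    intro i hi
    have hd := h.down_step hi (hn (i + 1))
    rcases h i with h1 | h1 | h1
    · obtain ⟨j, hj1, hj2⟩ := hi
      exact ⟨j, by omega, by omega⟩
    · obtain ⟨j, hj1, hj2⟩ := hd
      exact ⟨j, by omega, by omega⟩
    · obtain ⟨j, hj1, hj2⟩ := hd
      exact ⟨j, by omega, by omega⟩
  intro i
  rcases le_total i0 i with hi | hi
  · induction i, hi using Int.leInduction with
    | base => exact h0
    | succ n hn' ih => exact hup n ih
  · induction i, hi using Int.leInductionDown with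
    | base => exact h0
    | pred n hn' ih =>
      apply hdn (n - 1)
      rw [sub_add_cancel]
      exact ih

theorem Steps.other (h : Steps X Y) {p q : ℤ} (hs : ¬ Share X Y p q)
    (h0 : ∀ i, Lam X Y (X i + p) (Y i + q)) : ∀ j, Lam Y X (Y j - q) (X j - p) := by
  intro j
  rcases h.cover (X j - p) (Y j - q) with h1 | h1
  · exfalso
    obtain ⟨i, hi1, hi2⟩ := h1
    obtain ⟨k, hk⟩ := h.on (h0 i) ⟨j, by omega, by omega⟩
    exact hs ⟨i, k, hk⟩
  · exact h1

theorem Share.neg {p q : ℤ} (h : Share X Y (-p) (-q)) : Share X Y p q := by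
  obtain ⟨i, j, h1, h2⟩ := h
  exact ⟨j, i, by omega, by omega⟩

theorem Share.swap {p q : ℤ} (h : Share Y X q p) : Share X Y p q := by
  obtain ⟨i, j, h1, h2⟩ := h
  exact ⟨i, j, h2, h1⟩

theorem Lft.swap {p q : ℤ} (h : Lft Y X q p) : Lft X Y (-p) (-q) := by
  refine ⟨fun i => ?_, fun i => ?_⟩
  · have := h.2 i
    rwa [sub_eq_add_neg, sub_eq_add_neg] at this
  · have := h.1 i
    rwa [sub_neg_eq_add, sub_neg_eq_add]

theorem Steps.left_or (h : Steps X Y) {p q : ℤ} (hs : ¬ Share X Y p q) :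
    Lft X Y p q ∨ Lft X Y (-p) (-q) := by
  rcases h.cover (X 0 + p) (Y 0 + q) with h1 | h1
  · left
    have h2 := h.side hs 0 h1
    exact ⟨h2, h.other hs h2⟩
  · right
    have hs' : ¬ Share Y X q p := fun hc => hs hc.swap
    have h2 := h.swap.side hs' 0 h1
    exact Lft.swap ⟨h2, h.swap.other hs' h2⟩

theorem Steps.left_right (h : Steps X Y) {p q : ℤ} (hs : ¬ Share X Y p q)
    (hl : Lft X Y p q) : Lft X Y (p + 1) q := by
  refine ⟨fun i => ?_, fun i => ?_⟩
  · rw [← add_assoc]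
    exact h.right_step (hl.1 i) (fun k hk => hs ⟨i, k, hk⟩)
  · rw [show X i - (p + 1) = X i - p - 1 by ring]
    refine h.swap.down_step (hl.2 i) (fun k hk => hs ⟨k, i, by omega, by omega⟩)

theorem Steps.left_down (h : Steps X Y) {p q : ℤ} (hs : ¬ Share X Y p q)
    (hl : Lft X Y p q) : Lft X Y p (q - 1) := by
  refine ⟨fun i => ?_, fun i => ?_⟩
  · rw [← add_sub_assoc]
    exact h.down_step (hl.1 i) (fun k hk => hs ⟨i, k, hk⟩)
  · rw [show Y i - (q - 1) = Y i - q + 1 by ring]
    refine h.swap.right_step (hl.2 i) (fun k hk => hs ⟨k, i, by omega, by omega⟩)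

theorem Steps.not_both (h : Steps X Y) {p q : ℤ} (hs : ¬ Share X Y p q)
    (h1 : Lft X Y p q) : ¬ Lft X Y (-p) (-q) := by
  intro h2
  have h3 := h2.2 0
  rw [sub_neg_eq_add, sub_neg_eq_add] at h3
  obtain ⟨k, hk⟩ := h.on (h1.1 0) h3
  exact hs ⟨0, k, hk⟩

/-- If some difference does not occur, no left translation goes to the lower right. -/
theorem Steps.no_bad (h : Steps X Y) {p0 q0 : ℤ} (hs : ¬ Share X Y p0 q0) {p q : ℤ}
    (hl : Lft X Y p q) (hp : 0 < p) (hq : q < 0) : False := by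
  have key : ∀ x y : ℤ, Lft X Y x y := by
    intro x y
    have h1 := hl.nsmul (x.natAbs + y.natAbs)
    have hN : ((x.natAbs + y.natAbs : ℕ) : ℤ) = |x| + |y| := by
      push_cast
      rfl
    rw [hN] at h1
    have hx : x ≤ (|x| + |y|) * p := by
      have h3 : |x| + |y| ≤ (|x| + |y|) * p := by
        have : 0 ≤ |x| + |y| := by positivity
        nlinarith
      have := le_abs_self x
      have := abs_nonneg y
      linarith
    have hy : (|x| + |y|) * q ≤ y := by
      have h3 : (|x| + |y|) * q ≤ -(|x| + |y|) := by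
        have : 0 ≤ |x| + |y| := by positivity
        nlinarith
      have := neg_abs_le y
      have := abs_nonneg x
      linarith
    have h4 := (h1.add (Lft.left ((|x| + |y|) * p - x).toNat)).add
      (Lft.up (y - (|x| + |y|) * q).toNat)
    rw [Int.toNat_of_nonneg (by linarith), Int.toNat_of_nonneg (by linarith)] at h4
    have e1 : (|x| + |y|) * p + -((|x| + |y|) * p - x) + 0 = x := by ring
    have e2 : (|x| + |y|) * q + 0 + (y - (|x| + |y|) * q) = y := by ring
    rwa [e1, e2] at h4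
  exact h.not_both hs (key p0 q0) (key _ _)

end Pool.Agent.H41.TG
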