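import Mathlib
import Pool.Agent.H41.TG.Path

/-!
# The linear form and the Bohr set for a two-sided path
-/

set_option autoImplicit false

namespace Pool.Agent.H41.TG

variable {X Y : ℤ → ℤ}

theorem Steps.exists_slope (h : Steps X Y) {p0 q0 : ℤ} (hs : ¬ Share X Y p0 q0) (u v : ℤ)
    (hu : 0 < u) (hv : 0 < v) (g : ℝ) (hg : 0 < g) :
    ∃ a : ℝ, ∀ p q : ℤ, Lft X Y p q → a * (u * p + v * q) ≤ g * q := by
  set Lo : Set ℝ := {r | ∃ p q : ℤ, Lft X Y p q ∧ u * p + v * q < 0 ∧
    r = g * q / (u * p + v * q)} with hLo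
  set Up : Set ℝ := {r | ∃ p q : ℤ, Lft X Y p q ∧ 0 < u * p + v * q ∧
    r = g * q / (u * p + v * q)} with hUp
  have hLon : Lo.Nonempty := by
    refine ⟨_, -1, 0, ?_, by linarith, rfl⟩
    simpa using (Lft.left 1 : Lft X Y _ _)
  have hUpn : Up.Nonempty := by
    refine ⟨_, 0, 1, ?_, by linarith, rfl⟩
    simpa using (Lft.up 1 : Lft X Y _ _)
  have hle : ∀ r ∈ Lo, ∀ s ∈ Up, r ≤ s := by
    rintro r ⟨p2, q2, hl2, hf2, rfl⟩ s ⟨p1, q1, hl1, hf1, rfl⟩
    have h3 := (hl1.nsmul (-(u * p2 + v * q2)).toNat).add (hl2.nsmul (u * p1 + v * q1).toNat)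
    rw [Int.toNat_of_nonneg (by linarith), Int.toNat_of_nonneg (by linarith)] at h3
    have hQ : 0 ≤ -(u * p2 + v * q2) * q1 + (u * p1 + v * q1) * q2 := by
      by_contra hc
      push Not at hc
      refine h.no_bad hs h3 ?_ hc
      have e : u * (-(u * p2 + v * q2) * p1 + (u * p1 + v * q1) * p2) =
          -v * (-(u * p2 + v * q2) * q1 + (u * p1 + v * q1) * q2) := by ring
      have h4 : 0 < u * (-(u * p2 + v * q2) * p1 + (u * p1 + v * q1) * p2) := by
        rw [e]
        nlinarith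
      exact (mul_pos_iff_of_pos_left hu).1 h4
    have hQr : (0 : ℝ) ≤ -(u * p2 + v * q2) * q1 + (u * p1 + v * q1) * q2 := by
      exact_mod_cast hQ
    have hf1r : (0 : ℝ) < u * p1 + v * q1 := by exact_mod_cast hf1
    have hf2r : (u * p2 + v * q2 : ℝ) < 0 := by exact_mod_cast hf2
    rw [← neg_div_neg_eq (g * (q2 : ℝ)), div_le_div_iff₀ (by linarith) hf1r]
    nlinarith
  obtain ⟨a, ha1, ha2⟩ := exists_between_of_forall_le hLon hUpn hle
  refine ⟨a, fun p q hl => ?_⟩
  rcases lt_trichotomy (u * p + v * q) 0 with hf | hf | hf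
  · have h1 : g * q / (u * p + v * q) ≤ a := ha1 ⟨p, q, hl, hf, rfl⟩
    have hfr : (u * p + v * q : ℝ) < 0 := by exact_mod_cast hf
    rwa [div_le_iff_of_neg hfr] at h1
  · have hfr : (u * p + v * q : ℝ) = 0 := by exact_mod_cast hf
    rw [hfr, mul_zero]
    have hq : 0 ≤ q := by
      by_contra hc
      push Not at hc
      refine h.no_bad hs hl ?_ hc
      have h4 : 0 < u * p := by nlinarith
      exact (mul_pos_iff_of_pos_left hu).1 h4
    have hqr : (0 : ℝ) ≤ q := by exact_mod_cast hq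
    positivity
  · have h1 : a ≤ g * q / (u * p + v * q) := ha2 ⟨p, q, hl, hf, rfl⟩
    have hfr : (0 : ℝ) < u * p + v * q := by exact_mod_cast hf
    rwa [le_div_iff₀ hfr] at h1

/-- Steps `(1,0)` and `(0,1)` only. -/
def Steps2 (X Y : ℤ → ℤ) : Prop :=
  ∀ i, (X (i + 1) = X i + 1 ∧ Y (i + 1) = Y i) ∨ (X (i + 1) = X i ∧ Y (i + 1) = Y i + 1)

theorem Steps2.steps (h : Steps2 X Y) : Steps X Y := by
  intro i
  rcases h i with h1 | h1
  · exact Or.inl h1
  · exact Or.inr (Or.inl h1)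

theorem Steps2.sum (h : Steps2 X Y) (i : ℤ) : X i + Y i = X 0 + Y 0 + i := by
  have h1 : ∀ i, X (i + 1) + Y (i + 1) = X i + Y i + 1 := by
    intro i
    rcases h i with h1 | h1 <;> omega
  rcases le_total 0 i with hi | hi
  · induction i, hi using Int.leInduction with
    | base => simp
    | succ n hn ih => have := h1 n; omega
  · induction i, hi using Int.leInductionDown with
    | base => simp
    | pred n hn ih =>
      have := h1 (n - 1)
      rw [sub_add_cancel] at this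
      omega

/-- With steps `(1,0)`, `(0,1)` only one can go diagonally from a point strictly left. -/
theorem Steps2.diag_step (h : Steps2 X Y) {x y : ℤ} (h1 : Lam X Y x y)
    (h2 : ∀ k, ¬ (X k = x ∧ Y k = y)) : Lam X Y (x + 1) (y - 1) := by
  have h3 := h.sum (x + y - (X 0 + Y 0))
  set i := x + y - (X 0 + Y 0) with hi
  have h4 := h2 i
  rcases lt_trichotomy (X i) x with h5 | h5 | h5
  · exfalso
    obtain ⟨k, hk⟩ := h.steps.on h1 ⟨i, by omega, by omega⟩
    exact h2 k hk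
  · omega
  · exact ⟨i, by omega, by omega⟩

theorem Steps2.swap (h : Steps2 X Y) : Steps2 Y X := by
  intro i
  rcases h i with h1 | h1
  · exact Or.inr ⟨h1.2, h1.1⟩
  · exact Or.inl ⟨h1.2, h1.1⟩

theorem Steps2.left_diag (h : Steps2 X Y) {p q : ℤ} (hs : ¬ Share X Y p q)
    (hl : Lft X Y p q) : Lft X Y (p + 1) (q - 1) := by
  refine ⟨fun i => ?_, fun i => ?_⟩
  · rw [← add_assoc, ← add_sub_assoc]
    exact h.diag_step (hl.1 i) (fun k hk => hs ⟨i, k, hk⟩)
  · rw [show X i - (p + 1) = X i - p - 1 by ring, show Y i - (q - 1) = Y i - q + 1 by ring]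
    refine h.swap.diag_step (hl.2 i) (fun k hk => hs ⟨k, i, by omega, by omega⟩)

/-- From the linear form to the Bohr set: `c` is the radius. -/
theorem bohr_of_form (u v : ℤ) (hu : 0 < u) (hv : 0 < v) (a b c : ℝ)
    (hab : a * v + b * u = Int.gcd u v)
    (hS : ∀ p q : ℤ, |b * q - a * p| < c → Share X Y p q) :
    ∃ θ : ℝ, (∃ k : ℤ, u * θ + a = k) ∧ (∃ k : ℤ, v * θ - b = k) ∧
      ∀ n : ℤ, (Int.gcd u v : ℤ) ∣ n → |n * θ - round (n * θ)| < c →
        ∃ i j, n = u * (X j - X i) + v * (Y j - Y i) := by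
  have hgpos : (0 : ℤ) < (Int.gcd u v : ℤ) := by
    exact_mod_cast Int.gcd_pos_of_ne_zero_left v hu.ne'
  have hgr : (0 : ℝ) < (Int.gcd u v : ℝ) := by exact_mod_cast hgpos
  set g : ℝ := (Int.gcd u v : ℝ) with hg
  set p0 : ℤ := Int.gcdA u v with hp0
  set q0 : ℤ := Int.gcdB u v with hq0
  have hbez : (Int.gcd u v : ℤ) = u * p0 + v * q0 := Int.gcd_eq_gcd_ab u v
  have hbezr : g = u * p0 + v * q0 := by
    rw [hg]
    exact_mod_cast congrArg (fun z : ℤ => (z : ℝ)) hbez
  obtain ⟨u', hu'⟩ : (Int.gcd u v : ℤ) ∣ u := Int.gcd_dvd_left u v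
  obtain ⟨v', hv'⟩ : (Int.gcd u v : ℤ) ∣ v := Int.gcd_dvd_right u v
  have hu'r : (u : ℝ) = g * u' := by
    rw [hg]
    exact_mod_cast congrArg (fun z : ℤ => (z : ℝ)) hu'
  have hv'r : (v : ℝ) = g * v' := by
    rw [hg]
    exact_mod_cast congrArg (fun z : ℤ => (z : ℝ)) hv'
  have hab' : a * v' + b * u' = 1 := by
    have h1 : g * (a * v' + b * u') = g * 1 := by
      rw [hu'r, hv'r] at hab
      linear_combination hab
    exact mul_left_cancel₀ hgr.ne' h1
  refine ⟨(b * q0 - a * p0) / g, ⟨q0, ?_⟩, ⟨-p0, ?_⟩, ?_⟩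
  · field_simp
    push_cast
    linear_combination a * hbezr + (q0 : ℝ) * hab
  · field_simp
    push_cast
    linear_combination (-b) * hbezr - (p0 : ℝ) * hab
  · rintro n ⟨m, rfl⟩ hn
    set r : ℤ := round (((Int.gcd u v * m : ℤ) : ℝ) * ((b * q0 - a * p0) / g)) with hr
    have hsh : Share X Y (m * p0 + r * v') (m * q0 - r * u') := by
      apply hS
      have e : b * ((m * q0 - r * u' : ℤ) : ℝ) - a * ((m * p0 + r * v' : ℤ) : ℝ) =
          ((Int.gcd u v * m : ℤ) : ℝ) * ((b * q0 - a * p0) / g) - r := by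
        push_cast
        rw [← hg]
        field_simp
        linear_combination (-(r : ℝ)) * hab'
      rw [e]
      exact hn
    obtain ⟨i, j, hX, hY⟩ := hsh
    refine ⟨i, j, ?_⟩
    have e1 : X j - X i = m * p0 + r * v' := by omega
    have e2 : Y j - Y i = m * q0 - r * u' := by omega
    rw [e1, e2]
    have e3 : u * v' = v * u' := by
      have : (Int.gcd u v : ℤ) * (u' * v') = (Int.gcd u v : ℤ) * (v' * u') := by ring
      calc u * v' = (Int.gcd u v : ℤ) * u' * v' := by rw [← hu']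
        _ = (Int.gcd u v : ℤ) * v' * u' := by ring
        _ = v * u' := by rw [← hv']
    rw [hbez]
    linear_combination (-r) * e3

theorem Steps.slopes (h : Steps X Y) {p0 q0 : ℤ} (hs : ¬ Share X Y p0 q0) (u v : ℤ)
    (hu : 0 < u) (hv : 0 < v) (g : ℝ) (hg : 0 < g) :
    ∃ a b : ℝ, 0 ≤ a ∧ 0 ≤ b ∧ a * v + b * u = g ∧
      ∀ p q : ℤ, Lft X Y p q → 0 ≤ b * q - a * p := by
  obtain ⟨a, ha⟩ := h.exists_slope hs u v hu hv g hg
  have hur : (0 : ℝ) < u := by exact_mod_cast hu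
  have hvr : (0 : ℝ) < v := by exact_mod_cast hv
  have h1 := ha (-1) 0 (by simpa using (Lft.left 1 : Lft X Y _ _))
  have h2 := ha 0 1 (by simpa using (Lft.up 1 : Lft X Y _ _))
  push_cast at h1 h2
  refine ⟨a, (g - a * v) / u, ?_, ?_, ?_, ?_⟩
  · nlinarith
  · apply div_nonneg _ hur.le
    linarith
  · field_simp
    ring
  · intro p q hl
    have h3 := ha p q hl
    have e : (g - a * v) / u * q - a * p = (g * q - a * (u * p + v * q)) / u := by
      field_simp
      ring
    rw [e]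
    apply div_nonneg _ hur.le
    linarith

theorem Steps.bohr (h : Steps X Y) (u v : ℤ) (hu : 0 < u) (hv : 0 < v) :
    ∃ θ a b : ℝ, 0 ≤ a ∧ 0 ≤ b ∧ a * v + b * u = Int.gcd u v ∧ (∃ k : ℤ, u * θ + a = k) ∧
      (∃ k : ℤ, v * θ - b = k) ∧
      ∀ n : ℤ, (Int.gcd u v : ℤ) ∣ n → |n * θ - round (n * θ)| < max a b →
        ∃ i j, n = u * (X j - X i) + v * (Y j - Y i) := by
  have hgpos : (0 : ℤ) < (Int.gcd u v : ℤ) := by
    exact_mod_cast Int.gcd_pos_of_ne_zero_left v hu.ne'
  have hgr : (0 : ℝ) < (Int.gcd u v : ℝ) := by exact_mod_cast hgpos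
  have hur : (0 : ℝ) < u := by exact_mod_cast hu
  by_cases hall : ∀ p q, Share X Y p q
  · obtain ⟨θ, h1, h2, h3⟩ := bohr_of_form (X := X) (Y := Y) u v hu hv 0
      ((Int.gcd u v : ℝ) / u) (max 0 ((Int.gcd u v : ℝ) / u)) (by field_simp; ring)
      (fun p q _ => hall p q)
    exact ⟨θ, 0, (Int.gcd u v : ℝ) / u, le_refl _, by positivity, by field_simp; ring, h1, h2, h3⟩
  · push Not at hall
    obtain ⟨p0, q0, hs⟩ := hall
    obtain ⟨a, b, ha, hb, hab, hL⟩ := h.slopes hs u v hu hv _ hgr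
    have hkey : ∀ p q : ℤ, ¬ Share X Y p q → Lft X Y p q → max a b ≤ b * q - a * p := by
      intro p q hsh hl
      have h1 := hL _ _ (h.left_right hsh hl)
      have h2 := hL _ _ (h.left_down hsh hl)
      push_cast at h1 h2
      exact max_le (by linarith) (by linarith)
    obtain ⟨θ, h1, h2, h3⟩ := bohr_of_form (X := X) (Y := Y) u v hu hv a b (max a b) hab
      (by
        intro p q hlt
        by_contra hsh
        rcases h.left_or hsh with hl | hl
        · have := hkey p q hsh hl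
          rw [abs_lt] at hlt
          linarith
        · have := hkey (-p) (-q) (fun hc => hsh hc.neg) hl
          push_cast at this
          rw [abs_lt] at hlt
          linarith)
    exact ⟨θ, a, b, ha, hb, hab, h1, h2, h3⟩

theorem Steps2.bohr (h : Steps2 X Y) (u v : ℤ) (hu : 0 < u) (hv : 0 < v) :
    ∃ θ a b : ℝ, 0 ≤ a ∧ 0 ≤ b ∧ a * v + b * u = Int.gcd u v ∧ (∃ k : ℤ, u * θ + a = k) ∧
      (∃ k : ℤ, v * θ - b = k) ∧
      ∀ n : ℤ, (Int.gcd u v : ℤ) ∣ n → |n * θ - round (n * θ)| < a + b →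
        ∃ i j, n = u * (X j - X i) + v * (Y j - Y i) := by
  have hgpos : (0 : ℤ) < (Int.gcd u v : ℤ) := by
    exact_mod_cast Int.gcd_pos_of_ne_zero_left v hu.ne'
  have hgr : (0 : ℝ) < (Int.gcd u v : ℝ) := by exact_mod_cast hgpos
  have hur : (0 : ℝ) < u := by exact_mod_cast hu
  by_cases hall : ∀ p q, Share X Y p q
  · obtain ⟨θ, h1, h2, h3⟩ := bohr_of_form (X := X) (Y := Y) u v hu hv 0
      ((Int.gcd u v : ℝ) / u) (0 + ((Int.gcd u v : ℝ) / u)) (by field_simp; ring)
      (fun p q _ => hall p q)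
    exact ⟨θ, 0, (Int.gcd u v : ℝ) / u, le_refl _, by positivity, by field_simp; ring, h1, h2, h3⟩
  · push Not at hall
    obtain ⟨p0, q0, hs⟩ := hall
    obtain ⟨a, b, ha, hb, hab, hL⟩ := h.steps.slopes hs u v hu hv _ hgr
    have hkey : ∀ p q : ℤ, ¬ Share X Y p q → Lft X Y p q → a + b ≤ b * q - a * p := by
      intro p q hsh hl
      have h1 := hL _ _ (h.left_diag hsh hl)
      push_cast at h1
      linarith
    obtain ⟨θ, h1, h2, h3⟩ := bohr_of_form (X := X) (Y := Y) u v hu hv a b (a + b) hab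
      (by
        intro p q hlt
        by_contra hsh
        rcases h.steps.left_or hsh with hl | hl
        · have := hkey p q hsh hl
          rw [abs_lt] at hlt
          linarith
        · have := hkey (-p) (-q) (fun hc => hsh hc.neg) hl
          push_cast at this
          rw [abs_lt] at hlt
          linarith)
    exact ⟨θ, a, b, ha, hb, hab, h1, h2, h3⟩

end Pool.Agent.H41.TG
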