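import Mathlib

/-!
# From long finite chains to a two-sided path
-/

set_option autoImplicit false

namespace Pool.Agent.H41.TG

/-- Coordinates of a finite chain. -/
theorem chain_coords (A : Set ℤ) (u v : ℤ) (St : ℤ → ℤ → Prop) (N : ℕ) (s : ℕ → ℤ)
    (h1 : ∀ i < N, ∃ dx dy, St dx dy ∧ s (i + 1) - s i = u * dx + v * dy)
    (h2 : ∀ i ≤ N, s i ∈ A) :
    ∃ (x y : ℕ → ℤ) (c : ℤ), (∀ i < N, St (x (i + 1) - x i) (y (i + 1) - y i)) ∧
      ∀ i ≤ N, c + (u * x i + v * y i) ∈ A := by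
  have h3 : ∀ i, ∃ dx dy, i < N → St dx dy ∧ s (i + 1) - s i = u * dx + v * dy := by
    intro i
    by_cases hi : i < N
    · obtain ⟨dx, dy, h⟩ := h1 i hi
      exact ⟨dx, dy, fun _ => h⟩
    · exact ⟨0, 0, fun h => absurd h hi⟩
  choose dx dy hd using h3
  refine ⟨fun i => ∑ k ∈ Finset.range i, dx k, fun i => ∑ k ∈ Finset.range i, dy k, s 0, ?_, ?_⟩
  · intro i hi
    simp only [Finset.sum_range_succ, add_sub_cancel_left]
    exact (hd i hi).1
  · have h4 : ∀ i ≤ N, s i = s 0 + (u * (∑ k ∈ Finset.range i, dx k) +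
        v * (∑ k ∈ Finset.range i, dy k)) := by
      intro i
      induction i with
      | zero => intro _; simp
      | succ n ih =>
        intro hn
        have h5 := ih (by omega)
        have h6 := (hd n (by omega)).2
        rw [Finset.sum_range_succ, Finset.sum_range_succ]
        linear_combination h5 + h6
    intro i hi
    rw [← h4 i hi]
    exact h2 i hi

theorem incr_bound (x : ℕ → ℤ) (M : ℕ) (h : ∀ i < M, 0 ≤ x (i + 1) - x i ∧ x (i + 1) - x i ≤ 1)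
    (a : ℕ) : ∀ k, a + k ≤ M → 0 ≤ x (a + k) - x a ∧ x (a + k) - x a ≤ k := by
  intro k
  induction k with
  | zero => intro _; simp
  | succ n ih =>
    intro hn
    have h1 := ih (by omega)
    have h2 := h (a + n) (by omega)
    rw [← add_assoc]
    push_cast
    omega

theorem limit_path (A : Set ℤ) (u v : ℤ) (St : ℤ → ℤ → Prop)
    (hSt : ∀ dx dy, St dx dy → (0 ≤ dx ∧ dx ≤ 1) ∧ (0 ≤ dy ∧ dy ≤ 1))
    (hA : ∀ N : ℕ, ∃ s : ℕ → ℤ, (∀ i < N, ∃ dx dy, St dx dy ∧ s (i + 1) - s i = u * dx + v * dy) ∧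
      ∀ i ≤ N, s i ∈ A) :
    ∃ X Y : ℤ → ℤ, (∀ i, St (X (i + 1) - X i) (Y (i + 1) - Y i)) ∧
      ∀ i j, ∃ x ∈ A, ∃ y ∈ A, u * (X j - X i) + v * (Y j - Y i) = x - y := by
  have h1 : ∀ N : ℕ, ∃ (x y : ℕ → ℤ) (c : ℤ),
      (∀ i < 2 * N, St (x (i + 1) - x i) (y (i + 1) - y i)) ∧
      ∀ i ≤ 2 * N, c + (u * x i + v * y i) ∈ A := by
    intro N
    obtain ⟨s, hs1, hs2⟩ := hA (2 * N)
    exact chain_coords A u v St (2 * N) s hs1 hs2
  choose x y c hst hmem using h1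
  have hbx : ∀ (N : ℕ) (j : ℤ), j.natAbs ≤ N →
      x N (N + j).toNat - x N N ∈ Finset.Icc (-(j.natAbs : ℤ)) j.natAbs := by
    intro N j hj
    rw [Finset.mem_Icc]
    have hinc : ∀ i < 2 * N, 0 ≤ x N (i + 1) - x N i ∧ x N (i + 1) - x N i ≤ 1 :=
      fun i hi => (hSt _ _ (hst N i hi)).1
    rcases le_total 0 j with h0 | h0
    · have h2 := incr_bound (x N) (2 * N) hinc N j.toNat (by omega)
      have e : (N + j).toNat = N + j.toNat := by omega
      rw [e]
      omega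
    · have h2 := incr_bound (x N) (2 * N) hinc (N + j).toNat j.natAbs (by omega)
      have e : (N + j).toNat + j.natAbs = N := by omega
      rw [e] at h2
      omega
  have hby : ∀ (N : ℕ) (j : ℤ), j.natAbs ≤ N →
      y N (N + j).toNat - y N N ∈ Finset.Icc (-(j.natAbs : ℤ)) j.natAbs := by
    intro N j hj
    rw [Finset.mem_Icc]
    have hinc : ∀ i < 2 * N, 0 ≤ y N (i + 1) - y N i ∧ y N (i + 1) - y N i ≤ 1 :=
      fun i hi => (hSt _ _ (hst N i hi)).2
    rcases le_total 0 j with h0 | h0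
    · have h2 := incr_bound (y N) (2 * N) hinc N j.toNat (by omega)
      have e : (N + j).toNat = N + j.toNat := by omega
      rw [e]
      omega
    · have h2 := incr_bound (y N) (2 * N) hinc (N + j).toNat j.natAbs (by omega)
      have e : (N + j).toNat + j.natAbs = N := by omega
      rw [e] at h2
      omega
  have hge : ∀ k : ℕ, ∀ᶠ N in (Filter.hyperfilter ℕ : Filter ℕ), k ≤ N := by
    intro k
    have h2 : ∀ᶠ N in Filter.atTop, k ≤ N := Filter.eventually_ge_atTop k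
    rw [← Nat.cofinite_eq_atTop] at h2
    exact Filter.hyperfilter_le_cofinite h2
  have hex : ∀ j : ℤ, ∃ w : ℤ × ℤ, ∀ᶠ N in (Filter.hyperfilter ℕ : Filter ℕ),
      x N (N + j).toNat - x N N = w.1 ∧ y N (N + j).toNat - y N N = w.2 := by
    intro j
    set F : Finset (ℤ × ℤ) := Finset.Icc (-(j.natAbs : ℤ)) j.natAbs ×ˢ
      Finset.Icc (-(j.natAbs : ℤ)) j.natAbs with hF
    have h2 : ∀ᶠ N in (Filter.hyperfilter ℕ : Filter ℕ), ∃ w ∈ (F : Set (ℤ × ℤ)),
        x N (N + j).toNat - x N N = w.1 ∧ y N (N + j).toNat - y N N = w.2 := by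
      filter_upwards [hge j.natAbs] with N hN
      exact ⟨(_, _), Finset.mem_coe.2 (Finset.mem_product.2 ⟨hbx N j hN, hby N j hN⟩), rfl, rfl⟩
    obtain ⟨w, -, hw⟩ := (Ultrafilter.eventually_exists_mem_iff (F.finite_toSet)).1 h2
    exact ⟨w, hw⟩
  choose w hw using hex
  refine ⟨fun j => (w j).1, fun j => (w j).2, fun i => ?_, fun i j => ?_⟩
  · obtain ⟨N, ⟨⟨hN1, hN2⟩, hN3, hN4⟩, hN5⟩ :=
      (((hw i).and (hw (i + 1))).and (hge (i.natAbs + 1))).exists
    have e : ((N : ℤ) + (i + 1)).toNat = ((N : ℤ) + i).toNat + 1 := by omega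
    have h3 := hst N ((N : ℤ) + i).toNat (by omega)
    rw [e] at hN3 hN4
    show St ((w (i + 1)).1 - (w i).1) ((w (i + 1)).2 - (w i).2)
    rw [← hN1, ← hN2, ← hN3, ← hN4, sub_sub_sub_cancel_right, sub_sub_sub_cancel_right]
    exact h3
  · obtain ⟨N, ⟨⟨hN1, hN2⟩, hN3, hN4⟩, hN5, hN6⟩ :=
      (((hw i).and (hw j)).and ((hge i.natAbs).and (hge j.natAbs))).exists
    refine ⟨_, hmem N ((N : ℤ) + j).toNat (by omega), _, hmem N ((N : ℤ) + i).toNat (by omega), ?_⟩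
    show u * ((w j).1 - (w i).1) + v * ((w j).2 - (w i).2) = _
    rw [← hN1, ← hN2, ← hN3, ← hN4]
    ring

end Pool.Agent.H41.TG
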