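import Mathlib
import Pool.Agent.H41.TG.Form
import Pool.Agent.H41.TG.Limit

/-!
# Sets with long chains of differences `u`, `v`, `u + v`
-/

set_option autoImplicit false

namespace Pool.Agent.H41.TG

theorem three (u v : ℤ) (hu : 0 < u) (hv : 0 < v) (A : Set ℤ)
    (hA : ∀ N : ℕ, ∃ s : ℕ → ℤ, (∀ i ≤ N, s i ∈ A) ∧
      ∀ i < N, s (i + 1) - s i ∈ ({u, v, u + v} : Set ℤ)) :
    ∃ θ a b : ℝ, 0 ≤ a ∧ 0 ≤ b ∧ a * v + b * u = Int.gcd u v ∧ (∃ k : ℤ, u * θ + a = k) ∧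
      (∃ k : ℤ, v * θ - b = k) ∧
      ∀ n : ℤ, (Int.gcd u v : ℤ) ∣ n → |n * θ - round (n * θ)| < max a b →
        ∃ x ∈ A, ∃ y ∈ A, n = x - y := by
  obtain ⟨X, Y, hXY, hd⟩ := limit_path A u v
    (fun dx dy => (dx = 1 ∧ dy = 0) ∨ (dx = 0 ∧ dy = 1) ∨ (dx = 1 ∧ dy = 1))
    (by intro dx dy h; rcases h with h | h | h <;> omega)
    (by
      intro N
      obtain ⟨s, hs1, hs2⟩ := hA N
      refine ⟨s, fun i hi => ?_, hs1⟩
      rcases hs2 i hi with h | h | h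
      · exact ⟨1, 0, Or.inl ⟨rfl, rfl⟩, by rw [h]; ring⟩
      · exact ⟨0, 1, Or.inr (Or.inl ⟨rfl, rfl⟩), by rw [h]; ring⟩
      · exact ⟨1, 1, Or.inr (Or.inr ⟨rfl, rfl⟩), by rw [Set.mem_singleton_iff.1 h]; ring⟩)
  have hst : Steps X Y := by
    intro i
    rcases hXY i with h | h | h
    · exact Or.inl ⟨by omega, by omega⟩
    · exact Or.inr (Or.inl ⟨by omega, by omega⟩)
    · exact Or.inr (Or.inr ⟨by omega, by omega⟩)
  obtain ⟨θ, a, b, ha, hb, hab, h1, h2, h3⟩ := hst.bohr u v hu hv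
  refine ⟨θ, a, b, ha, hb, hab, h1, h2, fun n hn hlt => ?_⟩
  obtain ⟨i, j, hij⟩ := h3 n hn hlt
  obtain ⟨x, hx, y, hy, hxy⟩ := hd i j
  exact ⟨x, hx, y, hy, by rw [hij, hxy]⟩

theorem two (u v : ℤ) (hu : 0 < u) (hv : 0 < v) (A : Set ℤ)
    (hA : ∀ N : ℕ, ∃ s : ℕ → ℤ, (∀ i ≤ N, s i ∈ A) ∧
      ∀ i < N, s (i + 1) - s i ∈ ({u, v} : Set ℤ)) :
    ∃ θ a b : ℝ, 0 ≤ a ∧ 0 ≤ b ∧ a * v + b * u = Int.gcd u v ∧ (∃ k : ℤ, u * θ + a = k) ∧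
      (∃ k : ℤ, v * θ - b = k) ∧
      ∀ n : ℤ, (Int.gcd u v : ℤ) ∣ n → |n * θ - round (n * θ)| < a + b →
        ∃ x ∈ A, ∃ y ∈ A, n = x - y := by
  obtain ⟨X, Y, hXY, hd⟩ := limit_path A u v
    (fun dx dy => (dx = 1 ∧ dy = 0) ∨ (dx = 0 ∧ dy = 1))
    (by intro dx dy h; rcases h with h | h <;> omega)
    (by
      intro N
      obtain ⟨s, hs1, hs2⟩ := hA N
      refine ⟨s, fun i hi => ?_, hs1⟩
      rcases hs2 i hi with h | h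
      · exact ⟨1, 0, Or.inl ⟨rfl, rfl⟩, by rw [h]; ring⟩
      · exact ⟨0, 1, Or.inr ⟨rfl, rfl⟩, by rw [Set.mem_singleton_iff.1 h]; ring⟩)
  have hst : Steps2 X Y := by
    intro i
    rcases hXY i with h | h
    · exact Or.inl ⟨by omega, by omega⟩
    · exact Or.inr ⟨by omega, by omega⟩
  obtain ⟨θ, a, b, ha, hb, hab, h1, h2, h3⟩ := hst.bohr u v hu hv
  refine ⟨θ, a, b, ha, hb, hab, h1, h2, fun n hn hlt => ?_⟩
  obtain ⟨i, j, hij⟩ := h3 n hn hlt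
  obtain ⟨x, hx, y, hy, hxy⟩ := hd i j
  exact ⟨x, hx, y, hy, by rw [hij, hxy]⟩

/-- Among the multiples of `g` the multiples of `g * M` contain no one-dimensional Bohr set of
radius larger than `1 / M`. -/
theorem sharp (g : ℤ) (hg : 0 < g) (M : ℕ) (hM : 2 ≤ M) (θ r : ℝ)
    (h : ∀ n : ℤ, g ∣ n → |n * θ - round (n * θ)| < r → g * M ∣ n) : r ≤ 1 / M := by
  by_contra hc
  push Not at hc
  obtain ⟨k, hk0, hkM, hk⟩ := Real.exists_nat_abs_mul_sub_round_le (g * θ) (n := M - 1) (by omega)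
  have e1 : ((M - 1 : ℕ) : ℝ) + 1 = M := by
    rw [Nat.cast_sub (by omega)]
    push_cast
    ring
  rw [e1] at hk
  have h1 := h (g * k) (dvd_mul_right _ _) (by
    have e2 : ((g * k : ℤ) : ℝ) * θ = k * (g * θ) := by push_cast; ring
    rw [e2]
    exact lt_of_le_of_lt hk hc)
  have h2 : (M : ℤ) ∣ k := Int.dvd_of_mul_dvd_mul_left hg.ne' h1
  have h3 : M ∣ k := by exact_mod_cast h2
  have := Nat.le_of_dvd hk0 h3
  omega

end Pool.Agent.H41.TG
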